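import Pool.Agent.K7.H83.MA.Main

/-!
# MP_57adf2_an, Q1: the averages along `m, n, m + n, m n` converge in `L²`

Positive answer to Q1. Sketch. Colour the primes by the map `T_p`; a colour is *large* if the sum
of the reciprocals of its primes diverges.

* If `F₃` is orthogonal to all the *nearly periodic* functions (those for which `k ↦ T_k F₃`
  agrees with a periodic function off a set of `k` of arbitrarily small upper density) then, by
  the spectral theorem (Gelfand transform) and a uniform Halász theorem, the averages of `T_k F₃`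
  along every arithmetic progression vanish. A Turán-Kubilius argument over the primes `p` of a
  large colour (replace `m` by `p m`; then `T_{pm} F₁` and `T_{pmn} F₄` do not depend on `p`)
  shows that the averages `S_N` tend to zero.
* If `F₃` is nearly periodic, then `T_{m+n} F₃` may be replaced by `G (m + n mod Q)`; split the
  sums over `m` and `n` according to a label of `m` and of `n` (the part made of the primes
  dividing `Q` or of a small colour, the residue modulo `Q` of the rest, the number of the prime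
  factors of each large colour modulo `φ(Q)`). On each label the unitaries `T_m` are
  asymptotically equidistributed in the closed group generated by `φ(Q)`-th powers, and the
  averages of `T_m F₁ · T_n F₂ · T_{mn} F₄` converge by a cube averages theorem, through the
  relative product over the corresponding invariant factor.
-/

set_option autoImplicit false
set_option linter.unusedSectionVars false

open Finset Filter Topology MeasureTheory
open scoped ENNReal

namespace Pool.Agent.Results.MP_57adf2_an.AveragesConverge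

open Pool.Agent.K7.H83.MA

/-- A multiplicative measure preserving action (identities between maps are understood almost
everywhere): `T n`, `n ≥ 1`, are measure preserving maps, invertible modulo null sets, with
`T 1 = id` and `T (m n) = T m ∘ T n`. -/
structure MultAction {X : Type*} [MeasurableSpace X] (μ : Measure X) (T : ℕ → X → X) : Prop where
  mp : ∀ n, 0 < n → MeasurePreserving (T n) μ μ
  inv : ∀ n, 0 < n → ∃ S : X → X, MeasurePreserving S μ μ ∧ (∀ᵐ x ∂μ, S (T n x) = x) ∧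
    (∀ᵐ x ∂μ, T n (S x) = x)
  one : ∀ᵐ x ∂μ, T 1 x = x
  mul : ∀ m n, 0 < m → 0 < n → ∀ᵐ x ∂μ, T (m * n) x = T m (T n x)

/-- The action is finitely generated: up to equality almost everywhere, only finitely many maps
occur among the `T p`, `p` prime. -/
def FinGen {X : Type*} [MeasurableSpace X] (μ : Measure X) (T : ℕ → X → X) : Prop :=
  ∃ V : Set (X → X), V.Finite ∧ ∀ p : ℕ, p.Prime → ∃ S ∈ V, T p =ᵐ[μ] S

/-- The average `S_N(F₁, …, F₄)`. -/
noncomputable def SAv {X : Type*} (T : ℕ → X → X) (F₁ F₂ F₃ F₄ : X → ℂ) (N : ℕ) (x : X) : ℂ :=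
  1 / (N : ℂ) ^ 2 * ∑ m ∈ Icc 1 N, ∑ n ∈ Icc 1 N,
    F₄ (T (m * n) x) * F₃ (T (m + n) x) * F₁ (T m x) * F₂ (T n x)

theorem exists_BM {X : Type*} [MeasurableSpace X] {μ : Measure X} {F : X → ℂ}
    (hF : MemLp F ∞ μ) : ∃ G : X → ℂ, BM G ∧ F =ᵐ[μ] G := by
  classical
  set g := hF.1.mk F with hg
  have hgm : Measurable g := hF.1.stronglyMeasurable_mk.measurable
  have hFg : F =ᵐ[μ] g := hF.1.ae_eq_mk
  have hfin : eLpNormEssSup F μ ≠ ∞ := by
    have := hF.2
    rw [eLpNorm_exponent_top] at this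
    exact this.ne
  set C : ℝ := (eLpNormEssSup F μ).toReal with hC
  have hb : ∀ᵐ x ∂μ, ‖F x‖ ≤ C := by
    filter_upwards [ae_le_eLpNormEssSup (f := F) (μ := μ)] with x hx
    have h1 := ENNReal.toReal_mono hfin hx
    rwa [toReal_enorm] at h1
  refine ⟨fun x => if ‖g x‖ ≤ C then g x else 0, ⟨?_, C, ENNReal.toReal_nonneg, fun x => ?_⟩, ?_⟩
  · exact Measurable.ite (measurableSet_le hgm.norm measurable_const) hgm measurable_const
  · beta_reduce
    split_ifs with h
    · exact h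
    · rw [norm_zero]; exact ENNReal.toReal_nonneg
  · filter_upwards [hFg, hb] with x h1 h2
    rw [if_pos (by rw [← h1]; exact h2), h1]

theorem exists_col {X : Type*} [MeasurableSpace X] {μ : Measure X} {T : ℕ → X → X}
    (hT : MultAction μ T) (hfg : FinGen μ T) : ∃ (r : ℕ) (c : ℕ → Fin r), Sys c μ T := by
  classical
  obtain ⟨V, hV, hVT⟩ := hfg
  have h1 : ∀ p : ℕ, ∃ S : hV.toFinset, p.Prime → T p =ᵐ[μ] (S : X → X) := by
    intro p
    by_cases hp : p.Prime
    · obtain ⟨S, hS, hTS⟩ := hVT p hp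
      exact ⟨⟨S, hV.mem_toFinset.2 hS⟩, fun _ => hTS⟩
    · obtain ⟨S, hS, hTS⟩ := hVT 2 Nat.prime_two
      exact ⟨⟨S, hV.mem_toFinset.2 hS⟩, fun h => absurd h hp⟩
  choose S hS using h1
  refine ⟨hV.toFinset.card, fun p => hV.toFinset.equivFin (S p), hT.mp, hT.inv, hT.one, hT.mul,
    fun p q hp hq hpq => ?_⟩
  have h2 : S p = S q := hV.toFinset.equivFin.injective hpq
  have h3 := hS p hp
  rw [h2] at h3
  exact h3.trans (hS q hq).symm

/-- **Q1, answered in the affirmative.** Let `(X, μ)` be a standard Borel probability space and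
`(T n)` a finitely generated multiplicative measure preserving action on it. Then for all
`F₁, F₂, F₃, F₄ ∈ L^∞(μ)` the averages
`S_N = N⁻² ∑_{m, n ≤ N} T_{mn} F₄ · T_{m+n} F₃ · T_m F₁ · T_n F₂` converge in `L²(μ)`. -/
theorem result {X : Type*} [MeasurableSpace X] [StandardBorelSpace X] (μ : Measure X)
    [IsProbabilityMeasure μ] (T : ℕ → X → X) (hT : MultAction μ T) (hfg : FinGen μ T)
    (F₁ F₂ F₃ F₄ : X → ℂ) (h₁ : MemLp F₁ ∞ μ) (h₂ : MemLp F₂ ∞ μ) (h₃ : MemLp F₃ ∞ μ)
    (h₄ : MemLp F₄ ∞ μ) :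
    ∃ L : X → ℂ, MemLp L 2 μ ∧
      Tendsto (fun N : ℕ => eLpNorm (fun x => SAv T F₁ F₂ F₃ F₄ N x - L x) 2 μ) atTop (𝓝 0) := by
  classical
  obtain ⟨r, c, hs⟩ := exists_col hT hfg
  obtain ⟨G₁, hG₁, e₁⟩ := exists_BM h₁
  obtain ⟨G₂, hG₂, e₂⟩ := exists_BM h₂
  obtain ⟨G₃, hG₃, e₃⟩ := exists_BM h₃
  obtain ⟨G₄, hG₄, e₄⟩ := exists_BM h₄
  obtain ⟨V, hV⟩ := SN_conv hs hG₁ hG₂ hG₄ (bl μ G₃)
  refine ⟨V, Lp.memLp V, ?_⟩
  rw [Lp.tendsto_Lp_iff_tendsto_eLpNorm'] at hV
  refine hV.congr fun N => eLpNorm_congr_ae ?_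
  -- all the almost everywhere identities
  have a1 : ∀ᵐ x ∂μ, ∀ m, 0 < m → F₁ (T m x) = G₁ (T m x) := by
    rw [ae_all_iff]; intro m
    by_cases hm : 0 < m
    · filter_upwards [(hs.mp m hm).quasiMeasurePreserving.ae e₁] with x hx _ using hx
    · exact Eventually.of_forall fun x h => absurd h hm
  have a2 : ∀ᵐ x ∂μ, ∀ m, 0 < m → F₂ (T m x) = G₂ (T m x) := by
    rw [ae_all_iff]; intro m
    by_cases hm : 0 < m
    · filter_upwards [(hs.mp m hm).quasiMeasurePreserving.ae e₂] with x hx _ using hx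
    · exact Eventually.of_forall fun x h => absurd h hm
  have a3 : ∀ᵐ x ∂μ, ∀ m, 0 < m → F₃ (T m x) = G₃ (T m x) := by
    rw [ae_all_iff]; intro m
    by_cases hm : 0 < m
    · filter_upwards [(hs.mp m hm).quasiMeasurePreserving.ae e₃] with x hx _ using hx
    · exact Eventually.of_forall fun x h => absurd h hm
  have a4 : ∀ᵐ x ∂μ, ∀ m, 0 < m → F₄ (T m x) = G₄ (T m x) := by
    rw [ae_all_iff]; intro m
    by_cases hm : 0 < m
    · filter_upwards [(hs.mp m hm).quasiMeasurePreserving.ae e₄] with x hx _ using hx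
    · exact Eventually.of_forall fun x h => absurd h hm
  -- the operator average as the class of a bounded function
  have hw : ∀ m ∈ Ioc 0 N, ∀ n ∈ Ioc 0 N,
      BM (fun x => ww T G₁ G₂ G₄ m n x * G₃ (T (m + n) x)) := by
    intro m hm n hn
    rw [mem_Ioc] at hm hn
    exact (ww_BM hs hG₁ hG₂ hG₄ hm.1 hn.1).mul (hG₃.comp (hs.mp (m + n) (by omega)).measurable)
  have b1 : SN μ T G₁ G₂ G₄ N (bl μ G₃) = bl μ (fun x => ((N : ℂ)⁻¹ * (N : ℂ)⁻¹) *
      ∑ m ∈ Ioc 0 N, ∑ n ∈ Ioc 0 N, ww T G₁ G₂ G₄ m n x * G₃ (T (m + n) x)) := by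
    rw [SN_apply, bl_smul (BM.sum _ fun m hm => BM.sum _ fun n hn => hw m hm n hn),
      bl_sum _ fun m hm => BM.sum _ fun n hn => hw m hm n hn]
    congr 1
    refine Finset.sum_congr rfl fun m hm => ?_
    rw [bl_sum _ fun n hn => hw m hm n hn]
    refine Finset.sum_congr rfl fun n hn => ?_
    rw [mem_Ioc] at hm hn
    rw [koop_bl (hs.mp _ (by omega)) hG₃, mulB_bl (ww_BM hs hG₁ hG₂ hG₄ hm.1 hn.1)
      (hG₃.comp (hs.mp (m + n) (by omega)).measurable)]
  have b2 : BM (fun x => ((N : ℂ)⁻¹ * (N : ℂ)⁻¹) *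
      ∑ m ∈ Ioc 0 N, ∑ n ∈ Ioc 0 N, ww T G₁ G₂ G₄ m n x * G₃ (T (m + n) x)) :=
    (BM.const _).mul (BM.sum _ fun m hm => BM.sum _ fun n hn => hw m hm n hn)
  rw [b1]
  filter_upwards [a1, a2, a3, a4, bl_coe b2] with x a1 a2 a3 a4 b3
  rw [Pi.sub_apply, b3]
  congr 1
  unfold SAv
  have hI : (Icc 1 N : Finset ℕ) = Ioc 0 N := by
    ext k; rw [mem_Icc, mem_Ioc]; omega
  rw [hI]
  have hN : 1 / (N : ℂ) ^ 2 = (N : ℂ)⁻¹ * (N : ℂ)⁻¹ := by
    rw [one_div, sq, mul_inv]
  rw [hN]
  congr 1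
  refine Finset.sum_congr rfl fun m hm => Finset.sum_congr rfl fun n hn => ?_
  rw [mem_Ioc] at hm hn
  rw [a1 m hm.1, a2 n hn.1, a3 (m + n) (by omega), a4 (m * n) (Nat.mul_pos hm.1 hn.1)]
  unfold ww
  ring

end Pool.Agent.Results.MP_57adf2_an.AveragesConverge
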